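import Mathlib
import Pool.Agent.H892.ZL.Stm

set_option autoImplicit false

/-!
# ZL project (helper892), task SX (helper726)
-/

namespace Pool.Agent.H726.ZL

open Pool.Agent.H892.ZL

open MvPolynomial Matrix

/-- the value of the four equations at `x` -/
def ev (s : Fin 6 → ℂ) (x : Fin 3 → ℂ) : Fin 4 → ℂ :=
  ![x 0 * s 3 - x 1 * s 1 + x 2 * s 0, x 0 * s 4 - x 1 * s 2 + s 0,
    x 0 * s 5 - x 2 * s 2 + s 1, x 1 * s 5 - x 2 * s 4 + s 3]

/-- the four equations of the points of the line -/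
noncomputable def ell (s : Fin 6 → ℂ) : Fin 4 → MvPolynomial (Fin 3) ℂ :=
  ![X 0 * C (s 3) - X 1 * C (s 1) + X 2 * C (s 0), X 0 * C (s 4) - X 1 * C (s 2) + C (s 0),
    X 0 * C (s 5) - X 2 * C (s 2) + C (s 1), X 1 * C (s 5) - X 2 * C (s 4) + C (s 3)]

theorem eval_ell (s : Fin 6 → ℂ) (x : Fin 3 → ℂ) (i : Fin 4) : eval x (ell s i) = ev s x i := by
  fin_cases i <;> simp [ell, ev]

theorem ev_aff (x y : Fin 3 → ℂ) (i : Fin 4) : ev (aff x y) x i = 0 := by
  fin_cases i <;> simp [ev, aff, plu] <;> ring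

theorem ev_smul (c : ℂ) (s : Fin 6 → ℂ) (x : Fin 3 → ℂ) (i : Fin 4) :
    ev (fun j => c * s j) x i = c * ev s x i := by
  fin_cases i <;> simp [ev] <;> ring

theorem exists_ell (s : Fin 6 → ℂ) (hs : s ≠ 0) : ∃ i, ell s i ≠ 0 := by
  by_contra hcon
  push Not at hcon
  have h : ∀ x i, ev s x i = 0 := fun x i => by rw [← eval_ell, hcon i, map_zero]
  have h0 := h 0 1
  have h1 := h 0 2
  have h3 := h 0 3
  have h4 := h ![1, 0, 0] 1
  have h5 := h ![1, 0, 0] 2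
  have h2 := h ![0, 1, 0] 1
  simp [ev] at h0 h1 h3 h4 h5 h2
  apply hs
  funext j
  rw [h0] at h4 h2
  rw [h1] at h5
  simp at h4 h2 h5
  fin_cases j
  · exact h0
  · exact h1
  · exact h2
  · exact h3
  · exact h4
  · exact h5

/-- **SX** -/
theorem t_SX : S_SX := by
  classical
  intro K hK
  obtain ⟨S, hS⟩ := hK.sing
  have hex : ∀ s : Fin 6 → ℂ, ∃ p : MvPolynomial (Fin 3) ℂ, p ≠ 0 ∧
      (s ≠ 0 → ∃ i, p = ell s i) := by
    intro s
    by_cases hs : s = 0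
    · exact ⟨1, one_ne_zero, fun h => absurd hs h⟩
    · obtain ⟨i, hi⟩ := exists_ell s hs
      exact ⟨ell s i, hi, fun _ => ⟨i, rfl⟩⟩
  choose p hp0 hp using hex
  refine ⟨∏ s ∈ S, p s, Finset.prod_ne_zero_iff.2 fun s _ => hp0 s, ?_⟩
  intro x y _ hc hns
  obtain ⟨s, hsS, hs0, hprop⟩ := hS _ hc hns
  rw [map_prod]
  refine Finset.prod_eq_zero hsS ?_
  obtain ⟨i, hi⟩ := hp s hs0
  rw [hi, eval_ell]
  obtain ⟨j, hj⟩ := Function.ne_iff.1 hc.1
  have h1 : ev (fun l => aff x y j * s l) x i = ev (fun l => s j * aff x y l) x i := by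
    congr 1
    funext l
    rw [hprop j l, mul_comm]
  rw [ev_smul, ev_smul, ev_aff, mul_zero] at h1
  rcases mul_eq_zero.1 h1 with h | h
  · exact absurd h hj
  · exact h

end Pool.Agent.H726.ZL
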